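import Pool.Agent.helper69.AD.GS6

/-!
XE6: twist deformations preserve the cyclic order of the visible points.
-/

open scoped MatrixGroups LinearAlgebra.Projectivization
open Matrix UpperHalfPlane

namespace AdSBend

open LeafSystem

/-- moving a point inside an interval that contains neither of the two other points -/
theorem XE6_move (hBD3 : BD3_stmt) (x y c d a b : Bd) (hc : Cyc x c y) (hd : Cyc x d y)
    (ha : ¬ Cyc x a y) (hb : ¬ Cyc x b y) (h : Cyc c a b) (hBD4 : BD4_stmt) : Cyc d a b := by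
  obtain ⟨φ, -, hinj, h2, h3, h4⟩ := hBD3 x
  obtain ⟨k1, k2, k3, k4, k5, k6⟩ := hBD4
  have hcx : c ≠ x := (k1 _ _ _ hc).1.symm
  have hdx : d ≠ x := (k1 _ _ _ hd).1.symm
  have hyx : y ≠ x := (k1 _ _ _ hc).2.2
  have hcy : φ c < φ y := (h2 c y hcx hyx).1 hc
  have hdy : φ d < φ y := (h2 d y hdx hyx).1 hd
  by_cases hax : a = x
  · exfalso
    subst hax
    -- Cyc c a b with a = x
    have h5 : Cyc a b c := k2 _ _ _ h
    have hbx : b ≠ a := (k1 _ _ _ h5).1.symm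
    have h6 : φ b < φ c := (h2 b c hbx hcx).1 h5
    exact hb ((h2 b y hbx hyx).2 (h6.trans hcy))
  have hay : φ y ≤ φ a := by
    by_contra hlt
    exact ha ((h2 a y hax hyx).2 (not_le.1 hlt))
  by_cases hbx : b = x
  · subst hbx
    have h5 : Cyc b c a := k2 _ _ _ (k2 _ _ _ h)
    have : Cyc b d a := (h2 d a hdx hax).2 (hdy.trans_le hay)
    exact k2 _ _ _ this
  have hby : φ y ≤ φ b := by
    by_contra hlt
    exact hb ((h2 b y hbx hyx).2 (not_le.1 hlt))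
  rw [h3 _ _ _ hcx hax hbx] at h
  rw [h3 _ _ _ hdx hax hbx]
  rcases h with h | h | h
  · left; exact ⟨by linarith, h.2⟩
  · exfalso; linarith [h.1, h.2]
  · exfalso; linarith [h.1, h.2]

/-- points behind a leaf facing the reversed leaf `sw p` are behind `p` -/
theorem XE6_facing (hBD3 : BD3_stmt) (hBD4 : BD4_stmt) (p q : Bd × Bd) (c : Bd)
    (hf : Facing (sw p) q) (hq : Behind q c) : Behind p c := by
  obtain ⟨φ, -, hinj, h2, h3, h4⟩ := hBD3 p.2
  obtain ⟨k1, k2, k3, k4, k5, k6⟩ := hBD4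
  obtain ⟨f1, f2⟩ := hf
  simp only at f1 f2
  have hp1 : p.1 ≠ p.2 := (k1 _ _ _ f1).1.symm
  have hq1 : q.1 ≠ p.2 := (k1 _ _ _ f2).1.symm
  have hq2 : q.2 ≠ p.2 := (k1 _ _ _ f2).2.2
  have e1 : φ p.1 < φ q.1 := (h2 _ _ hp1 hq1).1 f1
  have e2 : φ q.1 < φ q.2 := (h2 _ _ hq1 hq2).1 f2
  unfold Behind at hq ⊢
  by_cases hcx : c = p.2
  · exfalso
    rw [hcx] at hq
    have := k2 _ _ _ hq
    have := (h2 _ _ hq2 hq1).1 this
    linarith
  rw [h3 _ _ _ hq1 hcx hq2] at hq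
  have e3 : φ p.1 < φ c := by
    rcases hq with h | h | h
    · linarith [h.1]
    · linarith [h.1, h.2]
    · linarith [h.1, h.2]
  have := (h2 _ _ hp1 hcx).2 e3
  exact k2 _ _ _ this

variable {Γ : Subgroup SL(2, ℝ)}

/-- no near leaf has the first point and another one behind it -/
def XE6_inv (S : LeafSystem Γ) (c₁ c₂ c₃ : Bd) (z : ℍ) : Prop :=
  ∀ p ∈ S.L, S.Near p z → ¬ (Behind p c₁ ∧ Behind p c₂) ∧ ¬ (Behind p c₁ ∧ Behind p c₃)

theorem XE6_median (hΓ : IsClosedSurfaceGroup Γ) (hBD3 : BD3_stmt) (hBD4 : BD4_stmt)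
    (hGM5 : GM5_stmt) (hPN3 : PN3_stmt) (hPN4 : PN4_stmt) (S : LeafSystem Γ)
    (c₁ c₂ c₃ : Bd) (z₂ : ℍ) (hz₂ : S.OffPt z₂) (hv₂ : S.Vis z₂ c₂) :
    ∀ (n : ℕ) (z : ℍ), S.OffPt z → {p : Bd × Bd | p ∈ S.L ∧ SepPts p.1 p.2 z z₂}.ncard ≤ n →
      XE6_inv S c₁ c₂ c₃ z → ∃ w, S.OffPt w ∧ XE6_inv S c₁ c₂ c₃ w ∧
        ∀ p ∈ S.L, S.Near p w → ¬ (Behind p c₂ ∧ Behind p c₃) := by
  intro n
  induction n with
  | zero =>
    intro z hz hn hinv
    refine ⟨z, hz, hinv, fun p hp hnear hb => ?_⟩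
    have hfin := (hGM5 Γ hΓ S).1 z z₂
    have hempty : {p : Bd × Bd | p ∈ S.L ∧ SepPts p.1 p.2 z z₂} = ∅ := by
      rw [← Set.ncard_eq_zero hfin]; omega
    have hmem : p ∈ {p : Bd × Bd | p ∈ S.L ∧ SepPts p.1 p.2 z z₂} := by
      refine ⟨hp, ?_⟩
      have h1 : side z p.1 p.2 < 0 := hnear.2.1
      have h2 : side z₂ p.1 p.2 ≠ 0 := hz₂ p hp
      have h3 : ¬ side z₂ p.1 p.2 < 0 := fun h => hv₂ p hp (Or.inr ⟨h, hb.1⟩)
      have h4 : 0 < side z₂ p.1 p.2 := lt_of_le_of_ne (not_lt.1 h3) (Ne.symm h2)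
      exact mul_neg_of_neg_of_pos h1 h4
    rw [hempty] at hmem
    exact hmem
  | succ n ih =>
    intro z hz hn hinv
    by_cases hgood : ∀ p ∈ S.L, S.Near p z → ¬ (Behind p c₂ ∧ Behind p c₃)
    · exact ⟨z, hz, hinv, hgood⟩
    push Not at hgood
    obtain ⟨p, hp, hnear, hb2, hb3⟩ := hgood
    have hswp : sw p ∈ S.L := S.swap p hp
    obtain ⟨z', hz'⟩ := (hPN3 Γ hΓ S (sw p) hswp).1
    have hacross : S.Across p z z' := (hPN3 Γ hΓ S p hp).2.1 z z' hnear hz'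
    have hoff' : S.OffPt z' := hz'.1
    have hpz2 : 0 < side z₂ p.1 p.2 := by
      have h2 : side z₂ p.1 p.2 ≠ 0 := hz₂ p hp
      have h3 : ¬ side z₂ p.1 p.2 < 0 := fun h => hv₂ p hp (Or.inr ⟨h, hb2⟩)
      exact lt_of_le_of_ne (not_lt.1 h3) (Ne.symm h2)
    have hb1 : ¬ Behind p c₁ := fun h => (hinv p hp hnear).1 ⟨h, hb2⟩
    apply ih z' hoff'
    · -- the set decreases
      have hfin := (hGM5 Γ hΓ S).1 z z₂
      have hsub : {q : Bd × Bd | q ∈ S.L ∧ SepPts q.1 q.2 z' z₂} ⊂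
          {q : Bd × Bd | q ∈ S.L ∧ SepPts q.1 q.2 z z₂} := by
        refine (Set.ssubset_iff_of_subset ?_).2 ⟨p, ⟨hp, ?_⟩, ?_⟩
        · rintro q ⟨hq, hsep⟩
          refine ⟨hq, ?_⟩
          by_contra hns
          -- q separates z' from z₂ but not z from z₂, so q separates z and z'
          have hsz : side z q.1 q.2 ≠ 0 := hz q hq
          have hsz' : side z' q.1 q.2 ≠ 0 := hoff' q hq
          have hsz2 : side z₂ q.1 q.2 ≠ 0 := hz₂ q hq
          have hsep2 : SepPts q.1 q.2 z z' := by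
            unfold SepPts at hsep hns ⊢
            rcases lt_or_gt_of_ne hsz with h1 | h1 <;> rcases lt_or_gt_of_ne hsz' with h2 | h2 <;>
              rcases lt_or_gt_of_ne hsz2 with h3 | h3
            · exact absurd (mul_pos_of_neg_of_neg h2 h3) (not_lt.2 hsep.le)
            · exact absurd (mul_neg_of_neg_of_pos h1 h3) hns
            · exact mul_neg_of_neg_of_pos h1 h2
            · exact mul_neg_of_neg_of_pos h1 h2
            · exact mul_neg_of_pos_of_neg h1 h2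
            · exact mul_neg_of_pos_of_neg h1 h2
            · exact absurd (mul_neg_of_pos_of_neg h1 h3) hns
            · exact absurd (mul_pos h2 h3) (not_lt.2 hsep.le)
          have hz'p : 0 < side z' p.1 p.2 := hacross.2.2.1
          rcases hacross.2.2.2 q hq hsep2 with h | h
          · subst h
            unfold SepPts at hsep
            exact absurd (mul_pos hz'p hpz2) (not_lt.2 hsep.le)
          · subst h
            unfold SepPts at hns
            have hzp : side z p.1 p.2 < 0 := hnear.2.1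
            have e1 : side z p.2 p.1 = - side z p.1 p.2 := by
              unfold side dt; ring
            have e2 : side z₂ p.2 p.1 = - side z₂ p.1 p.2 := by
              unfold side dt; ring
            apply hns
            simp only
            rw [e1, e2, neg_mul_neg]
            exact mul_neg_of_neg_of_pos hzp hpz2
        · exact mul_neg_of_neg_of_pos hnear.2.1 hpz2
        · rintro ⟨-, hsep⟩
          unfold SepPts at hsep
          exact absurd (mul_pos hacross.2.2.1 hpz2) (not_lt.2 hsep.le)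
      have := Set.ncard_lt_ncard hsub hfin
      omega
    · -- the invariant
      intro q hq hqnear
      rcases (hPN4 Γ hΓ S (sw p) hswp q hq z' hz').1 hqnear with h | h
      · subst h
        have k3 := hBD4.2.2.1
        have k2 := hBD4.2.1
        have n2 : ¬ Behind (sw p) c₂ := fun h => by
          have h5 : Cyc p.2 c₂ p.1 := h
          have h6 : Cyc p.1 c₂ p.2 := hb2
          exact k3 _ _ _ h6 (k2 _ _ _ (k2 _ _ _ h5))
        have n3 : ¬ Behind (sw p) c₃ := fun h => by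
          have h5 : Cyc p.2 c₃ p.1 := h
          have h6 : Cyc p.1 c₃ p.2 := hb3
          exact k3 _ _ _ h6 (k2 _ _ _ (k2 _ _ _ h5))
        exact ⟨fun h => n2 h.2, fun h => n3 h.2⟩
      · have hf : Facing (sw p) q := h.2.2.1
        have : ¬ Behind q c₁ := fun hh => hb1 (XE6_facing hBD3 hBD4 p q c₁ hf hh)
        exact ⟨fun h => this h.1, fun h => this h.1⟩

theorem XE6 (hBD2 : BD2_stmt) (hBD3 : BD3_stmt) (hBD4 : BD4_stmt) (hBD11 : BD11_stmt)
    (hGM5 : GM5_stmt) (hPN3 : PN3_stmt) (hPN4 : PN4_stmt) (hXE3 : XE3_stmt) (hXE4 : XE4_stmt)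
    (hXE5 : XE5_stmt) : XE6_stmt := by
  intro Γ hΓ S f r τ A hconj hA z₁ z₂ z₃ c₁ c₂ c₃ o₁ o₂ o₃ v₁ v₂ v₃ hcyc
  have k2 := hBD4.2.1
  have hinv₁ : XE6_inv S c₁ c₂ c₃ z₁ := by
    intro p hp hnear
    have : ¬ Behind p c₁ := fun h => v₁ p hp (Or.inr ⟨hnear.2.1, h⟩)
    exact ⟨fun h => this h.1, fun h => this h.1⟩
  obtain ⟨z, hz, hinv, hmed⟩ := XE6_median hΓ hBD3 hBD4 hGM5 hPN3 hPN4 S c₁ c₂ c₃ z₂ o₂ v₂ _ z₁ o₁
    le_rfl hinv₁
  obtain ⟨x1, x2, x3⟩ := hXE3 Γ hΓ S z hz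
  have key : ∀ (zi : ℍ) (ci : Bd), S.OffPt zi → S.Vis zi ci → ∃ d, A zi • f ci = A z • f d ∧
      (d = ci ∨ ∃ p ∈ S.L, S.Near p z ∧ Behind p ci ∧ Behind p d) := by
    intro zi ci hoi hvi
    by_cases hv : S.Vis z ci
    · exact ⟨ci, hXE4 Γ hΓ S f r τ A hconj hA zi z ci hoi hz hvi hv, Or.inl rfl⟩
    · obtain ⟨p, hp, hnear, hb⟩ := (x1 ci).1 hv
      have h5 := hXE5 Γ hΓ S f r τ A hconj hA z zi ci p hp hz hoi hnear hb hvi
      refine ⟨f.symm ((A z)⁻¹ • (A zi • f ci)), ?_, Or.inr ⟨p, hp, hnear, hb, ?_⟩⟩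
      · rw [Equiv.apply_symm_apply, smul_inv_smul]
      · have h6 : A zi • f ci = A z • f (f.symm ((A z)⁻¹ • (A zi • f ci))) := by
          rw [Equiv.apply_symm_apply, smul_inv_smul]
        rw [h6, hBD2, (hBD11 Γ f r hconj).1] at h5
        exact h5
  obtain ⟨d₁, e₁, m₁⟩ := key z₁ c₁ o₁ v₁
  obtain ⟨d₂, e₂, m₂⟩ := key z₂ c₂ o₂ v₂
  obtain ⟨d₃, e₃, m₃⟩ := key z₃ c₃ o₃ v₃
  rw [e₁, e₂, e₃, hBD2, (hBD11 Γ f r hconj).1]
  have step : ∀ c d a b : Bd, (d = c ∨ ∃ p ∈ S.L, S.Near p z ∧ Behind p c ∧ Behind p d) →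
      (∀ p ∈ S.L, S.Near p z → Behind p c → ¬ Behind p a ∧ ¬ Behind p b) → Cyc c a b →
      Cyc d a b := by
    intro c d a b hm hn hc
    rcases hm with rfl | ⟨p, hp, hnear, h1, h2⟩
    · exact hc
    · exact XE6_move hBD3 p.1 p.2 c d a b h1 h2 (hn p hp hnear h1).1 (hn p hp hnear h1).2 hc hBD4
  -- a leaf with the old point of one index and the new point of another index behind it
  have trans : ∀ c c' d' : Bd, (d' = c' ∨ ∃ p ∈ S.L, S.Near p z ∧ Behind p c' ∧ Behind p d') →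
      ∀ p ∈ S.L, S.Near p z → Behind p d' → Behind p c' := by
    intro c c' d' hm p hp hnear hb
    rcases hm with rfl | ⟨q, hq, hqn, h1, h2⟩
    · exact hb
    · have := x2 p hp q hq d' hnear hqn hb h2
      rw [this]; exact h1
  have s1 : Cyc d₁ c₂ c₃ := step c₁ d₁ c₂ c₃ m₁
    (fun p hp hnear h => ⟨fun h2 => (hinv p hp hnear).1 ⟨h, h2⟩,
      fun h3 => (hinv p hp hnear).2 ⟨h, h3⟩⟩) hcyc
  have s2 : Cyc d₂ c₃ d₁ := step c₂ d₂ c₃ d₁ m₂
    (fun p hp hnear h => ⟨fun h3 => hmed p hp hnear ⟨h, h3⟩,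
      fun h1 => (hinv p hp hnear).1 ⟨trans c₂ c₁ d₁ m₁ p hp hnear h1, h⟩⟩) (k2 _ _ _ s1)
  have s3 : Cyc d₃ d₁ d₂ := step c₃ d₃ d₁ d₂ m₃
    (fun p hp hnear h => ⟨fun h1 => (hinv p hp hnear).2 ⟨trans c₃ c₁ d₁ m₁ p hp hnear h1, h⟩,
      fun h2 => hmed p hp hnear ⟨trans c₃ c₂ d₂ m₂ p hp hnear h2, h⟩⟩) (k2 _ _ _ s2)
  exact k2 _ _ _ s3

end AdSBend
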