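import Pool.Agent.helper69.AD.GS6
import Pool.Agent.helper73.AD.Basic
import Pool.Agent.helper73.AD.Card

/-!
XG3: the closed trajectory is the trajectory of the family.
-/

namespace AdSBend

open Set Filter Topology
open Pool.Agent.helper73.AD (PS Word Cone sg sgL sgL_apply isOpen_Cone Cone_mem_nhds GS_stmt BF_stmt
  PreFamily)

theorem XG3_exists_low {J : Type} [Fintype J] {S : Set (PS J)} (hS : IsCompact S)
    (hne : S.Nonempty) (hpos : S ⊆ Cone J) : ∃ δ : ℝ, 0 < δ ∧ ∀ z ∈ S, ∀ j, δ ≤ z.1 j := by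
  have h1 : ∀ j : J, ∃ d : ℝ, 0 < d ∧ ∀ z ∈ S, d ≤ z.1 j := by
    intro j
    obtain ⟨x, hx, hmin⟩ := hS.exists_isMinOn hne
      (f := fun z : PS J => z.1 j) (((continuous_apply j).comp continuous_fst).continuousOn)
    exact ⟨x.1 j, hpos hx j, fun z hz => hmin hz⟩
  choose d hd hd' using h1
  have h2 : ∀ᶠ δ in 𝓝[>] (0 : ℝ), 0 < δ ∧ ∀ j, δ ≤ d j := by
    refine (eventually_mem_nhdsWithin (s := Ioi (0 : ℝ))).and ?_
    refine eventually_all.2 fun j => ?_
    exact (eventually_nhdsWithin_of_eventually_nhds (eventually_le_nhds (hd j)))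
  obtain ⟨δ, hδ, hδ'⟩ := h2.exists
  exact ⟨δ, hδ, fun z hz j => (hδ' j).trans (hd' j z hz)⟩

/-- Lipschitz bound of a C^1 map on boxes of the cone -/
theorem XG3_lip {J : Type} [Fintype J] (v : PS J → PS J) (hv : ContDiffOn ℝ 1 v (Cone J))
    (δ B : ℝ) (hδ : 0 < δ) : ∃ C : NNReal,
      LipschitzOnWith C v {z : PS J | (∀ j, δ ≤ z.1 j) ∧ ‖z‖ ≤ B} := by
  set s : Set (PS J) := {z : PS J | (∀ j, δ ≤ z.1 j) ∧ ‖z‖ ≤ B} with hs
  have hsub : s ⊆ Cone J := fun z hz j => hδ.trans_le (hz.1 j)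
  have hclosed : IsClosed s := by
    have h1 : s = (⋂ j, {z : PS J | δ ≤ z.1 j}) ∩ {z | ‖z‖ ≤ B} := by
      ext z; simp [hs]
    rw [h1]
    refine IsClosed.inter (isClosed_iInter fun j => ?_) (isClosed_le continuous_norm continuous_const)
    exact isClosed_le continuous_const ((continuous_apply j).comp continuous_fst)
  have hcomp : IsCompact s := by
    refine (isCompact_closedBall (0 : PS J) B).of_isClosed_subset hclosed fun z hz => ?_
    simpa [mem_closedBall_zero_iff] using hz.2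
  have hconv : Convex ℝ s := by
    intro x hx y hy a b ha hb hab
    refine ⟨fun j => ?_, ?_⟩
    · have h1 := hx.1 j
      have h2 := hy.1 j
      simp only [Prod.fst_add, Prod.smul_fst, Pi.add_apply, Pi.smul_apply, smul_eq_mul]
      nlinarith
    · have h1 := hx.2
      have h2 := hy.2
      calc ‖a • x + b • y‖ ≤ ‖a • x‖ + ‖b • y‖ := norm_add_le _ _
        _ = a * ‖x‖ + b * ‖y‖ := by
            rw [norm_smul, norm_smul, Real.norm_of_nonneg ha, Real.norm_of_nonneg hb]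
        _ ≤ a * B + b * B := by gcongr
        _ = B := by rw [← add_mul, hab, one_mul]
  have hcont : ContinuousOn (fderiv ℝ v) s :=
    (hv.continuousOn_fderiv_of_isOpen isOpen_Cone le_rfl).mono hsub
  obtain ⟨C, hC⟩ := hcomp.exists_bound_of_continuousOn hcont
  refine ⟨Real.toNNReal C, hconv.lipschitzOnWith_of_nnnorm_fderiv_le (𝕜 := ℝ) ?_ ?_⟩
  · intro x hx
    exact (hv.contDiffAt (Cone_mem_nhds (hsub hx))).differentiableAt (by norm_num)
  · intro x hx
    have := hC x hx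
    rw [← NNReal.coe_le_coe, coe_nnnorm]
    exact this.trans (Real.le_coe_toNNReal C)

theorem XG3 (hGS : GS_stmt) (hBF : BF_stmt) : XG3_stmt := by
  intro J K _ _ _ _ w Φ b z hz h0
  set v : PS J → PS J := fun u => ∑ k, b k • sg (fderiv ℝ (w k).H u) with hvdef
  have hsm : ∀ k, ContDiffOn ℝ 2 (w k).H (Cone J) := fun k =>
    (hGS J).2.2.2.2 (w k) (fun z hz => (hBF J (w k) z hz).1)
  have hv : ContDiffOn ℝ 1 v (Cone J) := by
    refine ContDiffOn.sum fun k _ => ?_
    have h1 : ContDiffOn ℝ 1 (fderiv ℝ (w k).H) (Cone J) :=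
      (hsm k).fderiv_of_isOpen isOpen_Cone (by norm_num)
    have h2 : ContDiffOn ℝ 1 (fun u => sgL (fderiv ℝ (w k).H u)) (Cone J) :=
      (sgL (J := J)).contDiff.comp_contDiffOn h1
    exact h2.const_smul (b k)
  set g : ℝ → PS J := fun t => Φ.Z (t • b) with hg
  have hgd : ∀ t : ℝ, HasDerivAt g (v (g t)) t := by
    intro t
    have h1 := Φ.dZ (t • b)
    have h2 : HasDerivAt (fun t : ℝ => t • b) b t := by
      have h5 := (hasDerivAt_id' (x := t)).smul_const b
      rw [one_smul] at h5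
      exact h5
    have h3 := h1.comp_hasDerivAt t h2
    have h4 : (∑ k, (ContinuousLinearMap.proj k : (K → ℝ) →L[ℝ] ℝ).smulRight
        (sg (fderiv ℝ (w k).H (Φ.Z (t • b))))) b = v (g t) := by
      simp [hvdef, hg]
    rw [h4] at h3
    exact h3
  have hzc : ContinuousOn z (Icc 0 1) := fun t ht => (hz t ht).2.continuousWithinAt
  have hgc : ContinuousOn g (Icc 0 1) := fun t _ => (hgd t).continuousAt.continuousWithinAt
  set S : Set (PS J) := z '' Icc 0 1 ∪ g '' Icc 0 1 with hS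
  have hSc : IsCompact S := (isCompact_Icc.image_of_continuousOn hzc).union
    (isCompact_Icc.image_of_continuousOn hgc)
  have hSne : S.Nonempty := ⟨z 0, Or.inl ⟨0, by simp, rfl⟩⟩
  have hSpos : S ⊆ Cone J := by
    rintro u (⟨t, ht, rfl⟩ | ⟨t, ht, rfl⟩)
    · exact (hz t ht).1
    · exact Φ.mem _
  obtain ⟨δ, hδ, hlow⟩ := XG3_exists_low hSc hSne hSpos
  obtain ⟨B, hB⟩ := hSc.exists_bound_of_continuousOn (f := fun u => u) continuousOn_id
  obtain ⟨C, hC⟩ := XG3_lip v hv δ B hδ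
  have hmem : ∀ u ∈ S, u ∈ {z : PS J | (∀ j, δ ≤ z.1 j) ∧ ‖z‖ ≤ B} := fun u hu =>
    ⟨hlow u hu, hB u hu⟩
  have key : EqOn z g (Icc 0 1) := by
    refine ODE_solution_unique_of_mem_Icc_right (v := fun _ => v)
      (s := fun _ => {z : PS J | (∀ j, δ ≤ z.1 j) ∧ ‖z‖ ≤ B}) (K := C)
      (fun t _ => hC) hzc ?_ ?_ hgc ?_ ?_ ?_
    · intro t ht
      exact ((hz t (Ico_subset_Icc_self ht)).2).mono_of_mem_nhdsWithin
        (Icc_mem_nhdsGE_of_mem ht)
    · intro t ht
      exact hmem _ (Or.inl ⟨t, Ico_subset_Icc_self ht, rfl⟩)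
    · intro t ht
      exact (hgd t).hasDerivWithinAt
    · intro t ht
      exact hmem _ (Or.inr ⟨t, Ico_subset_Icc_self ht, rfl⟩)
    · simp [hg, h0]
  have := key (show (1 : ℝ) ∈ Icc (0 : ℝ) 1 by simp)
  rw [this, hg]
  simp

end AdSBend
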