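import Pool.Agent.helper69.AD.GS6
import Pool.Agent.helper73.AD.Basic

/-!
XR1: the twist fields span the length directions.
-/

namespace AdSBend

open Pool.Agent.helper73.AD (PS Word Cone hs isOpen_Cone Cone_mem_nhds GS_stmt BF_stmt KD_stmt)

theorem XR1 (hGS : GS_stmt) (hBF : BF_stmt) (hKD : KD_stmt) : XR1_stmt := by
  intro J K _ _ _ _ w hcov q hq c h
  ext j
  obtain ⟨k, i, hki⟩ := hcov j
  have hz : ((q, 0) : PS J) ∈ Cone J := hq
  have hsm : ContDiffOn ℝ 2 (w k).H (Cone J) :=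
    (hGS J).2.2.2.2 (w k) (fun z hz => (hBF J (w k) z hz).1)
  have hat : ContDiffAt ℝ 2 (w k).H ((q, 0) : PS J) := hsm.contDiffAt (Cone_mem_nhds hz)
  have hdiff : DifferentiableAt ℝ (fun u => fderiv ℝ (w k).H u) ((q, 0) : PS J) := by
    have h1 : ContDiffAt ℝ 1 (fderiv ℝ (w k).H) ((q, 0) : PS J) :=
      hat.fderiv_right (m := 1) (by norm_num)
    exact h1.differentiableAt (by norm_num)
  have hline : HasDerivAt (fun s : ℝ => (((q, 0) : PS J) + s • ((0, c) : PS J)))
      ((0, c) : PS J) 0 := by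
    have := ((hasDerivAt_id (0 : ℝ)).smul_const ((0, c) : PS J)).const_add ((q, 0) : PS J)
    simpa using this
  have hcomp : HasDerivAt (fun s : ℝ => fderiv ℝ (w k).H (((q, 0) : PS J) + s • ((0, c) : PS J)))
      (fderiv ℝ (fun u => fderiv ℝ (w k).H u) ((q, 0) : PS J) ((0, c) : PS J)) 0 := by
    have hd := hdiff.hasFDerivAt
    have hd' : HasFDerivAt (fun u => fderiv ℝ (w k).H u)
        (fderiv ℝ (fun u => fderiv ℝ (w k).H u) ((q, 0) : PS J))
        (((q, 0) : PS J) + (0 : ℝ) • ((0, c) : PS J)) := by simpa using hd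
    exact hd'.comp_hasDerivAt 0 hline
  have happ : HasDerivAt
      (fun s : ℝ => fderiv ℝ (w k).H (((q, 0) : PS J) + s • ((0, c) : PS J)) ((0, c) : PS J))
      (hs (w k).H ((q, 0) : PS J) ((0, c) : PS J) ((0, c) : PS J)) 0 := by
    have := hcomp.clm_apply (hasDerivAt_const (0 : ℝ) ((0, c) : PS J))
    simpa [hs] using this
  have hconst : (fun s : ℝ => fderiv ℝ (w k).H (((q, 0) : PS J) + s • ((0, c) : PS J))
      ((0, c) : PS J)) = fun _ => 0 := by
    funext s
    have h2 : (((q, 0) : PS J) + s • ((0, c) : PS J)) = (q, s • c) := by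
      ext <;> simp
    rw [h2]
    exact h k (s • c)
  rw [hconst] at happ
  have h0 : hs (w k).H ((q, 0) : PS J) ((0, c) : PS J) ((0, c) : PS J) = 0 :=
    happ.unique (hasDerivAt_const (0 : ℝ) (0 : ℝ))
  have hN := (hKD J (w k) (q, 0) hz (0, c)).2 h0
  have := (hN i).2.2.2
  rw [hki] at this
  exact this

end AdSBend
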